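import Pool.Agent.Q143.GG.Sv
import Pool.Agent.H373R2.T7.Minor

set_option autoImplicit false

/-! The bound for the number of common neighbours. -/

namespace Pool.Agent.Q143.GG

open Finset
open Pool.Agent.H373R2.T7 (pz mem_pz Vz nuB PerB sys_fund Vz_pos Vz_le_one ev_log' ev_L')
open Pool.Agent.TH891.SG (Gm one_le_Gm Gm_pow)
open Pool.Agent.Y842.JC

/-- the weight of a pair -/
noncomputable def HH (x x' : ℕ) : ℝ := gz 2 (x' : ℤ) ^ 4 * gz 2 ((x : ℤ) - x') ^ 4 * gz 2 ((x : ℤ) + x') ^ 4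

lemma one_le_HH (x x' : ℕ) : 1 ≤ HH x x' := by
  unfold HH
  have h1 : 1 ≤ gz 2 (x' : ℤ) ^ 4 := one_le_pow₀ (one_le_gz (by norm_num) _)
  have h2 : 1 ≤ gz 2 ((x : ℤ) - x') ^ 4 := one_le_pow₀ (one_le_gz (by norm_num) _)
  have h3 : 1 ≤ gz 2 ((x : ℤ) + x') ^ 4 := one_le_pow₀ (one_le_gz (by norm_num) _)
  exact one_le_mul_of_one_le_of_one_le (one_le_mul_of_one_le_of_one_le h1 h2) h3

lemma prod_x (x y : ℕ) (hx : 1 ≤ x) :
    ∏ p ∈ pz y, (if p ∣ x then 1 + 1 / (p : ℝ) else 1) ≤ g1 x := by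
  classical
  rw [← prod_filter]
  unfold g1
  apply prod_mono_one
  · intro p hp
    rw [mem_filter, mem_pz] at hp
    rw [Nat.mem_primeFactors]
    exact ⟨hp.1.2, hp.2, by omega⟩
  · intro p
    have : 0 ≤ 1 / (p : ℝ) := by positivity
    linarith

open Classical in
lemma prod_ev (x x' y : ℕ) (hx : 1 ≤ x) (hx' : 1 ≤ x') (hne : x ≠ x') :
    ∏ p ∈ pz y, (if Ev x x' p then (1 + 2 / (p : ℝ)) ^ 4 else 1) ≤ 16 * HH x x' := by
  have hpt : ∀ p ∈ pz y, (if Ev x x' p then (1 + 2 / (p : ℝ)) ^ 4 else 1) ≤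
      (if p = 2 then (16 : ℝ) else 1) * ((if (p : ℤ) ∣ (x' : ℤ) then 1 + 2 / (p : ℝ) else 1) ^ 4 *
      (if (p : ℤ) ∣ (x : ℤ) - x' then 1 + 2 / (p : ℝ) else 1) ^ 4 *
      (if (p : ℤ) ∣ (x : ℤ) + x' then 1 + 2 / (p : ℝ) else 1) ^ 4) := by
    intro p hp
    have hpp := (mem_pz.1 hp).2
    have hu : 0 ≤ 2 / (p : ℝ) := by positivity
    have k1 : ∀ (c : Prop) [Decidable c], (1 : ℝ) ≤ (if c then 1 + 2 / (p : ℝ) else 1) ^ 4 := by
      intro c _
      apply one_le_pow₀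
      split_ifs <;> linarith
    have k2 : (1 : ℝ) ≤ (if p = 2 then (16 : ℝ) else 1) := by split_ifs <;> norm_num
    have e1 := k1 ((p : ℤ) ∣ (x' : ℤ))
    have e2 := k1 ((p : ℤ) ∣ (x : ℤ) - x')
    have e3 := k1 ((p : ℤ) ∣ (x : ℤ) + x')
    have e12 := one_le_mul_of_one_le_of_one_le e1 e2
    have e123 := one_le_mul_of_one_le_of_one_le e12 e3
    have e4 := one_le_mul_of_one_le_of_one_le k2 e123
    by_cases hE : Ev x x' p
    · rw [if_pos hE]
      rcases hE with h | h | h | h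
      · rw [if_pos h]
        have : (1 + 2 / (p : ℝ)) ^ 4 = 16 := by rw [h]; norm_num
        rw [this]
        exact le_mul_of_one_le_right (by norm_num) e123
      · have h' : (p : ℤ) ∣ (x' : ℤ) := by exact_mod_cast h
        rw [if_pos h'] at e12 ⊢
        refine le_trans ?_ (le_mul_of_one_le_left (by positivity) k2)
        rw [mul_assoc]
        exact le_mul_of_one_le_right (by positivity) (one_le_mul_of_one_le_of_one_le e2 e3)
      · rw [if_pos h]
        refine le_trans ?_ (le_mul_of_one_le_left (by positivity) k2)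
        rw [mul_assoc, mul_left_comm]
        exact le_mul_of_one_le_right (by positivity) (one_le_mul_of_one_le_of_one_le e1 e3)
      · rw [if_pos h]
        refine le_trans ?_ (le_mul_of_one_le_left (by positivity) k2)
        exact le_mul_of_one_le_left (by positivity) e12
    · rw [if_neg hE]
      exact e4
  refine (prod_le_prod (fun p _ => by positivity) hpt).trans ?_
  rw [prod_mul_distrib, prod_mul_distrib, prod_mul_distrib, prod_pow, prod_pow, prod_pow]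
  have a1 : ∏ p ∈ pz y, (if p = 2 then (16 : ℝ) else 1) ≤ 16 := by
    rw [prod_ite_eq']
    split_ifs <;> norm_num
  have g : ∀ d : ℤ, d ≠ 0 → ∏ p ∈ pz y, (if (p : ℤ) ∣ d then 1 + 2 / (p : ℝ) else 1) ≤ gz 2 d := by
    intro d hd
    exact Gm_ge y d hd
  have a0 : ∀ d : ℤ, 0 ≤ ∏ p ∈ pz y, (if (p : ℤ) ∣ d then 1 + 2 / (p : ℝ) else 1) := by
    intro d
    apply prod_nonneg
    intro p _
    split_ifs <;> positivity
  unfold HH
  apply mul_le_mul a1 _ (by have := a0 (x' : ℤ); have := a0 ((x : ℤ) - x'); have := a0 ((x : ℤ) + x'); positivity) (by norm_num)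
  apply mul_le_mul _ (pow_le_pow_left₀ (a0 _) (g _ (by omega)) 4) (pow_nonneg (a0 _) _)
    (by have := gz_nonneg (C := 2) (by norm_num) (x' : ℤ); have := gz_nonneg (C := 2) (by norm_num) ((x : ℤ) - x'); positivity)
  exact mul_le_mul (pow_le_pow_left₀ (a0 _) (g _ (by omega)) 4) (pow_le_pow_left₀ (a0 _) (g _ (by omega)) 4)
    (pow_nonneg (a0 _) _) (by have := gz_nonneg (C := 2) (by norm_num) (x' : ℤ); positivity)

lemma dens (x x' y : ℕ) (hx : 1 ≤ x) (hx' : 1 ≤ x') (hne : x ≠ x') :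
    ∏ p ∈ pz y, (1 - ((rem 0 (TT x x') p).card : ℝ) / p) ≤ Vz y ^ 4 * (g1 x * (16 * HH x x')) := by
  classical
  have h0 : ∀ p ∈ pz y, 0 ≤ 1 - ((rem 0 (TT x x') p).card : ℝ) / p := by
    intro p hp
    have hp0 : (0 : ℝ) < p := by exact_mod_cast (mem_pz.1 hp).2.pos
    have h2 : (rem 0 (TT x x') p).card ≤ p := by
      unfold rem
      exact (card_filter_le _ _).trans (by simp)
    have h3 : ((rem 0 (TT x x') p).card : ℝ) / p ≤ 1 := by
      rw [div_le_one hp0]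
      exact_mod_cast h2
    linarith
  refine (prod_le_prod h0 (fun p hp => local_bound x x' p (mem_pz.1 hp).2)).trans ?_
  rw [prod_mul_distrib, prod_pow]
  apply mul_le_mul_of_nonneg_left _ (pow_nonneg (Vz_pos y).le _)
  unfold Fp
  rw [prod_mul_distrib]
  apply mul_le_mul (prod_x x y hx) (prod_ev x x' y hx hx' hne)
  · apply prod_nonneg
    intro p _
    split_ifs <;> positivity
  · have := one_le_g1 x
    linarith

open Classical in
/-- a number of `r` for which all four shifts are free of small prime factors -/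
lemma count_rough : ∃ K x0 : ℕ, 1 ≤ K ∧ ∀ Y y : ℕ, x0 ≤ y → y ^ K ≤ Y → ∀ x x' : ℕ, 1 ≤ x → 1 ≤ x' → x ≠ x' →
    (((Icc 1 Y).filter (fun n : ℕ => ∀ p ∈ pz y, ¬ ∃ t ∈ TT x x', (p : ℤ) ∣ (n : ℤ) + t)).card : ℝ) ≤
      2 * (Y * (Vz y ^ 4 * (g1 x * (16 * HH x x')))) + √(Y : ℝ) := by
  obtain ⟨K, x0, hK, h⟩ := sys_fund 4 (by norm_num) 1 one_pos
  refine ⟨K, x0, hK, fun Y y hy hyY x x' hx hx' hne => ?_⟩
  have hrem : ∀ p, nuB (fun p n => ∃ t ∈ TT x x', (p : ℤ) ∣ (n : ℤ) + t) p = (rem 0 (TT x x') p).card := by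
    intro p
    unfold nuB rem
    apply congrArg
    ext r
    simp only [mem_filter, zero_add]
  have hremle : ∀ (T : Finset ℤ) (p : ℕ), p.Prime → (rem 0 T p).card ≤ T.card := by
    intro T p hp
    induction T using Finset.induction_on with
    | empty =>
      have : rem 0 ∅ p = ∅ := by
        unfold rem
        apply filter_false_of_mem
        rintro r _ ⟨t, ht, _⟩
        simp at ht
      rw [this]
      simp
    | insert t0 T ht0 ih =>
      obtain ⟨r0, h1, _, _⟩ := rem_insert 0 T t0 p hp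
      rw [h1, card_insert_of_notMem ht0]
      have := card_insert_le r0 (rem 0 T p)
      omega
  have hper : PerB (fun p n => ∃ t ∈ TT x x', (p : ℤ) ∣ (n : ℤ) + t) 4 := by
    constructor
    · intro p n
      apply exists_congr
      intro t
      apply and_congr_right
      intro _
      have h1 : (n : ℤ) = ((n % p : ℕ) : ℤ) + (p : ℤ) * ((n / p : ℕ) : ℤ) := by
        exact_mod_cast (Nat.mod_add_div n p).symm
      have e : (n : ℤ) + t = (((n % p : ℕ) : ℤ) + t) + (p : ℤ) * ((n / p : ℕ) : ℤ) := by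
        linarith [h1]
      rw [e]
      exact Int.dvd_add_left (Dvd.intro _ rfl)
    · intro p hp
      rw [hrem]
      exact (hremle _ p hp).trans (TT_card x x')
  have h1 := (abs_le.1 (h Y y hy hyY _ hper Y)).2
  have h2 : ∏ p ∈ pz y, (1 - (nuB (fun p n => ∃ t ∈ TT x x', (p : ℤ) ∣ (n : ℤ) + t) p : ℝ) / p) ≤
      Vz y ^ 4 * (g1 x * (16 * HH x x')) := by
    simp only [hrem]
    exact dens x x' y hx hx' hne
  have h3 := mul_le_mul_of_nonneg_left h2 (Nat.cast_nonneg Y : (0 : ℝ) ≤ Y)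
  refine le_trans (le_of_eq ?_) ((sub_le_iff_le_add.1 h1).trans ?_)
  · apply congrArg
    apply congrArg
    ext n
    simp only [mem_filter]
  · linarith

/-- the common neighbours are few or have all shifts free of small prime factors -/
lemma cod_split (n x x' y : ℕ) : (Cd n x x').card ≤
    ((Icc 1 n).filter (fun m : ℕ => ∀ p ∈ pz y, ¬ ∃ t ∈ TT x x', (p : ℤ) ∣ (m : ℤ) + t)).card + 4 * (2 * y + 1) := by
  classical
  have h1 : Cd n x x' ⊆ (Icc 1 n).filter (fun m : ℕ => ∀ p ∈ pz y, ¬ ∃ t ∈ TT x x', (p : ℤ) ∣ (m : ℤ) + t) ∪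
      (TT x x').biUnion (fun t => (Icc 1 n).filter (fun m : ℕ => ((m : ℤ) + t).natAbs ≤ y)) := by
    intro m hm
    unfold Cd at hm
    rw [mem_filter] at hm
    obtain ⟨hm1, ⟨hp1, hp2⟩, hp3, hp4⟩ := hm
    rw [mem_union]
    by_contra hcon
    rw [not_or] at hcon
    obtain ⟨c1, c2⟩ := hcon
    apply c1
    rw [mem_filter]
    refine ⟨hm1, ?_⟩
    rintro p hp ⟨t, ht, hpt⟩
    apply c2
    rw [mem_biUnion]
    refine ⟨t, ht, ?_⟩
    rw [mem_filter]
    refine ⟨hm1, ?_⟩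
    have hprime : ((m : ℤ) + t).natAbs.Prime := by
      unfold TT at ht
      simp only [mem_insert, mem_singleton] at ht
      rcases ht with rfl | rfl | rfl | rfl
      · have : ((m : ℤ) + (x : ℤ)).natAbs = x + m := by omega
        rw [this]; exact hp1
      · have : ((m : ℤ) + -(x : ℤ)).natAbs = Nat.dist x m := by unfold Nat.dist; omega
        rw [this]; exact hp2
      · have : ((m : ℤ) + (x' : ℤ)).natAbs = x' + m := by omega
        rw [this]; exact hp3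
      · have : ((m : ℤ) + -(x' : ℤ)).natAbs = Nat.dist x' m := by unfold Nat.dist; omega
        rw [this]; exact hp4
    have hdv : p ∣ ((m : ℤ) + t).natAbs := Int.natCast_dvd.1 hpt
    have hpz := mem_pz.1 hp
    have := (Nat.prime_dvd_prime_iff_eq hpz.2 hprime).1 hdv
    rw [← this]
    exact hpz.1
  refine (card_le_card h1).trans ((card_union_le _ _).trans ?_)
  apply Nat.add_le_add_left
  refine card_biUnion_le.trans ?_
  calc ∑ t ∈ TT x x', ((Icc 1 n).filter (fun m : ℕ => ((m : ℤ) + t).natAbs ≤ y)).card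
      ≤ ∑ _t ∈ TT x x', (2 * y + 1) := by
        apply sum_le_sum
        intro t _
        calc _ ≤ (Icc (-(y : ℤ)) y).card := by
              apply card_le_card_of_injOn (fun m : ℕ => (m : ℤ) + t)
              · intro m hm
                rw [mem_coe, mem_filter] at hm
                rw [mem_coe, mem_Icc]
                simp only
                omega
              · intro a _ b _ h
                simp only at h
                omega
          _ = 2 * y + 1 := by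
              rw [Int.card_Icc]
              omega
    _ = (TT x x').card * (2 * y + 1) := by rw [sum_const, smul_eq_mul]
    _ ≤ 4 * (2 * y + 1) := Nat.mul_le_mul_right _ (TT_card x x')

theorem cod_bound : ∃ C : ℝ, 1 ≤ C ∧ ∃ N0 : ℕ, ∀ n : ℕ, N0 ≤ n → ∀ x x' : ℕ, 1 ≤ x → 1 ≤ x' → x ≠ x' →
    ((Cd n x x').card : ℝ) ≤ C * (g1 x * HH x x') * (n / Real.log n ^ 4) := by
  classical
  obtain ⟨K, x0, hK, hcount⟩ := count_rough
  obtain ⟨CV, hCV, hV⟩ := Vz_up
  obtain ⟨n1, h1⟩ := ev_log' 4 1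
  obtain ⟨n2, h2⟩ := exists_nat_ge ((4 * ((x0 : ℝ) + 3)) ^ (2 * (K + 1)))
  set B : ℝ := (CV * (2 * (K + 1))) ^ 4 with hB
  have hB0 : 0 < B := by positivity
  refine ⟨32 * B + 1 + 12, by linarith, n1 + n2 + 3, fun n hn x x' hx hx' hne => ?_⟩
  have hn3 : (3 : ℝ) ≤ n := by exact_mod_cast (by omega : 3 ≤ n)
  have hn0 : (0 : ℝ) < n := by linarith
  set L := Real.log (n : ℝ) with hL
  have hL1 : 1 ≤ L := by
    rw [hL, Real.le_log_iff_exp_le hn0]
    have := Real.exp_one_lt_d9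
    linarith
  have hL0 : 0 < L := by linarith
  set κ : ℝ := 1 / ((K : ℝ) + 1) with hκ
  have hκ0 : 0 < κ := by positivity
  set y : ℕ := ⌊(n : ℝ) ^ κ⌋₊ with hy
  have hyle : (y : ℝ) ≤ (n : ℝ) ^ κ := Nat.floor_le (by positivity)
  have hypow : ((y : ℝ)) ^ (K + 1) ≤ n := by
    calc ((y : ℝ)) ^ (K + 1) ≤ ((n : ℝ) ^ κ) ^ (K + 1) := pow_le_pow_left₀ (Nat.cast_nonneg _) hyle _
      _ = n := by
          rw [← Real.rpow_natCast, ← Real.rpow_mul hn0.le, hκ]
          push_cast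
          rw [one_div, inv_mul_cancel₀ (by positivity), Real.rpow_one]
  have hbig : (4 * ((x0 : ℝ) + 3)) ^ 2 ≤ (n : ℝ) ^ κ := by
    have h3 : (4 * ((x0 : ℝ) + 3)) ^ (2 * (K + 1)) ≤ n := by
      have : (n2 : ℝ) ≤ n := by exact_mod_cast (by omega : n2 ≤ n)
      linarith
    have h4 : ((4 * ((x0 : ℝ) + 3)) ^ (2 * (K + 1))) ^ κ ≤ (n : ℝ) ^ κ :=
      Real.rpow_le_rpow (by positivity) h3 hκ0.le
    refine le_trans (le_of_eq ?_) h4
    rw [pow_mul, ← Real.rpow_natCast ((4 * ((x0 : ℝ) + 3)) ^ 2) (K + 1), ← Real.rpow_mul (by positivity), hκ]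
    push_cast
    rw [mul_one_div, div_self (by positivity), Real.rpow_one]
  have hx3 : (3 : ℝ) ≤ x0 + 3 := by
    have : (0 : ℝ) ≤ x0 := Nat.cast_nonneg _
    linarith
  have hlt : (n : ℝ) ^ κ < y + 1 := Nat.lt_floor_add_one _
  have hsq : √((n : ℝ) ^ κ) ≤ y := by
    have h5 : 4 * ((x0 : ℝ) + 3) ≤ √((n : ℝ) ^ κ) := Real.le_sqrt_of_sq_le hbig
    have h6 : √((n : ℝ) ^ κ) * √((n : ℝ) ^ κ) = (n : ℝ) ^ κ := Real.mul_self_sqrt (by positivity)
    nlinarith
  have hy4 : 4 * ((x0 : ℝ) + 3) ≤ y := (Real.le_sqrt_of_sq_le hbig).trans hsq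
  have hyx0 : x0 ≤ y := by
    have : (x0 : ℝ) ≤ y := by linarith
    exact_mod_cast this
  have hy3 : 3 ≤ y := by
    have : (3 : ℝ) ≤ y := by linarith
    exact_mod_cast this
  have hyr : (1 : ℝ) ≤ y := by exact_mod_cast (by omega : 1 ≤ y)
  have hlogy : L / (2 * (K + 1)) ≤ Real.log y := by
    have h5 : Real.log (√((n : ℝ) ^ κ)) ≤ Real.log y := Real.log_le_log (by positivity) hsq
    rw [Real.log_sqrt (by positivity), Real.log_rpow hn0, hκ, ← hL] at h5
    refine le_trans (le_of_eq ?_) h5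
    field_simp
  have hyY : y ^ K ≤ n := by
    have h3 : ((y : ℝ)) ^ K ≤ (y : ℝ) ^ (K + 1) := pow_le_pow_right₀ hyr (by omega)
    exact_mod_cast h3.trans hypow
  have hysq : (y : ℝ) ≤ √(n : ℝ) := by
    apply Real.le_sqrt_of_sq_le
    calc (y : ℝ) ^ 2 ≤ (y : ℝ) ^ (K + 1) := pow_le_pow_right₀ hyr (by omega)
      _ ≤ n := hypow
  have hly0 : 0 < Real.log y := Real.log_pos (by exact_mod_cast (by omega : 1 < y))
  have hVy : Vz y ≤ CV * (2 * (K + 1)) / L := by
    refine (hV y hy3).trans ?_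
    rw [div_le_div_iff₀ hly0 hL0]
    rw [div_le_iff₀ (by positivity)] at hlogy
    calc CV * L ≤ CV * (Real.log y * (2 * (K + 1))) := mul_le_mul_of_nonneg_left hlogy hCV.le
      _ = _ := by ring
  have hV4 : Vz y ^ 4 ≤ B / L ^ 4 := by
    rw [hB, ← div_pow]
    exact pow_le_pow_left₀ (Vz_pos y).le hVy 4
  have hc := hcount n y hyx0 hyY x x' hx hx' hne
  have hs : ((Cd n x x').card : ℝ) ≤
      (((Icc 1 n).filter (fun m : ℕ => ∀ p ∈ pz y, ¬ ∃ t ∈ TT x x', (p : ℤ) ∣ (m : ℤ) + t)).card : ℝ) + 4 * (2 * y + 1) := by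
    exact_mod_cast cod_split n x x' y
  have hG := one_le_g1 x
  have hH := one_le_HH x x'
  set G : ℝ := g1 x * HH x x' with hGd
  have hG1 : 1 ≤ G := one_le_mul_of_one_le_of_one_le hG hH
  have hnL : √(n : ℝ) ≤ n / L ^ 4 := by
    rw [le_div_iff₀ (by positivity)]
    have h3 := h1 n (by omega)
    rw [one_mul, ← hL] at h3
    calc √(n : ℝ) * L ^ 4 ≤ √(n : ℝ) * √(n : ℝ) := mul_le_mul_of_nonneg_left h3 (Real.sqrt_nonneg _)
      _ = n := Real.mul_self_sqrt hn0.le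
  have hX0 : 0 ≤ (n : ℝ) / L ^ 4 := by positivity
  have hXG : (n : ℝ) / L ^ 4 ≤ G * (n / L ^ 4) := le_mul_of_one_le_left hX0 hG1
  calc ((Cd n x x').card : ℝ) ≤ (2 * (n * (Vz y ^ 4 * (g1 x * (16 * HH x x')))) + √(n : ℝ)) + 4 * (2 * y + 1) := by
        linarith
    _ ≤ (32 * B * (G * (n / L ^ 4)) + n / L ^ 4) + 12 * (n / L ^ 4) := by
        have e1 : 2 * ((n : ℝ) * (Vz y ^ 4 * (g1 x * (16 * HH x x')))) = 32 * (G * n) * Vz y ^ 4 := by
          rw [hGd]; ring
        have e2 : 32 * (G * n) * Vz y ^ 4 ≤ 32 * (G * n) * (B / L ^ 4) :=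
          mul_le_mul_of_nonneg_left hV4 (by positivity)
        have e3 : 32 * (G * n) * (B / L ^ 4) = 32 * B * (G * (n / L ^ 4)) := by ring
        have e4 : 4 * (2 * (y : ℝ) + 1) ≤ 12 * y := by linarith
        linarith
    _ ≤ _ := by linarith

/-- the mean square of the weight -/
theorem sum_HH : ∃ C : ℝ, 1 ≤ C ∧ ∀ n x : ℕ, 1 ≤ n → x ≤ n → ∑ x' ∈ Icc 1 n, HH x x' ^ 2 ≤ C * n := by
  classical
  set D : ℝ := (1 + 2) ^ 24 with hD
  have hD0 : 0 ≤ D := by positivity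
  refine ⟨6 * mC D, by have := mC_ge D; linarith, fun n x hn hx => ?_⟩
  have hpt : ∀ x' ∈ Icc 1 n, HH x x' ^ 2 ≤ gz D (x' : ℤ) + gz D ((x : ℤ) - x') + gz D ((x : ℤ) + x') := by
    intro x' _
    unfold HH
    have key : ∀ a b c : ℝ, 0 ≤ a → 0 ≤ b → 0 ≤ c → a * b * c ≤ a ^ 3 + b ^ 3 + c ^ 3 := by
      intro a b c ha hb hc
      have h1 : 0 ≤ (a + b + c) * ((a - b) ^ 2 + (b - c) ^ 2 + (a - c) ^ 2) := by positivity
      have h2 : 0 ≤ a * b * c := by positivity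
      nlinarith
    have hg : ∀ d : ℤ, (gz 2 d ^ 8) ^ 3 ≤ gz D d := by
      intro d
      rw [← pow_mul]
      exact Gm_pow 24 (C := 2) (by norm_num) d.natAbs
    have h3 := key (gz 2 (x' : ℤ) ^ 8) (gz 2 ((x : ℤ) - x') ^ 8) (gz 2 ((x : ℤ) + x') ^ 8)
      (pow_nonneg (gz_nonneg (by norm_num) _) _) (pow_nonneg (gz_nonneg (by norm_num) _) _)
      (pow_nonneg (gz_nonneg (by norm_num) _) _)
    have e : (gz 2 (x' : ℤ) ^ 4 * gz 2 ((x : ℤ) - x') ^ 4 * gz 2 ((x : ℤ) + x') ^ 4) ^ 2 =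
        gz 2 (x' : ℤ) ^ 8 * gz 2 ((x : ℤ) - x') ^ 8 * gz 2 ((x : ℤ) + x') ^ 8 := by ring
    rw [e]
    refine h3.trans ?_
    linarith [hg (x' : ℤ), hg ((x : ℤ) - x'), hg ((x : ℤ) + x')]
  refine (sum_le_sum hpt).trans ?_
  rw [sum_add_distrib, sum_add_distrib]
  have hinj : ∀ f : ℤ → ℝ, ∑ x' ∈ Icc 1 n, f (x' : ℤ) = ∑ t ∈ (Icc 1 n).image (fun m : ℕ => (m : ℤ)), f t := by
    intro f
    rw [sum_image]
    intro a _ b _ h
    simpa using h
  have hn2 : 1 ≤ 2 * n := by omega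
  have s1 : ∑ x' ∈ Icc 1 n, gz D (x' : ℤ) ≤ mC D * (2 * n : ℕ) := by
    rw [hinj (fun t => gz D t)]
    apply sum_gz hD0 (2 * n) hn2
    intro t ht
    rw [mem_image] at ht
    obtain ⟨m, hm, rfl⟩ := ht
    rw [mem_Icc] at hm
    rw [abs_le]; push_cast; omega
  have s2 : ∑ x' ∈ Icc 1 n, gz D ((x : ℤ) - x') ≤ mC D * (2 * n : ℕ) := by
    have := sum_gz_aff hD0 (2 * n) hn2 ((Icc 1 n).image (fun m : ℕ => (m : ℤ))) (-1) (Or.inr rfl) x ?_
    · rw [hinj (fun t => gz D ((x : ℤ) - t))]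
      refine le_trans (le_of_eq ?_) this
      apply sum_congr rfl
      intro t _
      congr 1
      ring
    · intro t ht
      rw [mem_image] at ht
      obtain ⟨m, hm, rfl⟩ := ht
      rw [mem_Icc] at hm
      rw [abs_le]; push_cast; omega
  have s3 : ∑ x' ∈ Icc 1 n, gz D ((x : ℤ) + x') ≤ mC D * (2 * n : ℕ) := by
    have := sum_gz_aff hD0 (2 * n) hn2 ((Icc 1 n).image (fun m : ℕ => (m : ℤ))) 1 (Or.inl rfl) x ?_
    · rw [hinj (fun t => gz D ((x : ℤ) + t))]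
      refine le_trans (le_of_eq ?_) this
      apply sum_congr rfl
      intro t _
      congr 1
      ring
    · intro t ht
      rw [mem_image] at ht
      obtain ⟨m, hm, rfl⟩ := ht
      rw [mem_Icc] at hm
      rw [abs_le]; push_cast; omega
  push_cast at s1 s2 s3
  linarith

end Pool.Agent.Q143.GG
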