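import Pool.Agent.Q143.GG.Deg2
import Pool.Agent.Q143.GG.Cod
import Pool.Agent.W93.PG7

set_option autoImplicit false

/-! Almost all vertices have a large second neighbourhood; covering by boundedly many balls. -/

namespace Pool.Agent.Q143.GG

open Finset
open Pool.Agent.H373R2.T7 (ev_L' ev_log')

lemma Cd_le (n x x' : ℕ) : (Cd n x x').card ≤ n := by
  unfold Cd
  refine (card_filter_le _ _).trans ?_
  simp

lemma Nb_le (n x : ℕ) : (Nb n x).card ≤ n := by
  unfold Nb
  refine (card_filter_le _ _).trans ?_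
  simp

theorem good_main : ∃ c : ℝ, 0 < c ∧ ∀ A : ℕ, ∃ N₀ : ℕ, ∀ n : ℕ, N₀ ≤ n → ∃ E ⊆ Icc 1 n,
    (E.card : ℝ) ≤ n / Real.log n ^ A ∧ ∀ x ∈ Icc 1 n, x ∉ E → c * n ≤ (N2 n x).card := by
  classical
  obtain ⟨c1, hc1, hdeg⟩ := deg_low
  obtain ⟨C, hC, M0, hcod⟩ := cod_bound
  obtain ⟨C', hC', hHH⟩ := sum_HH
  set D : ℝ := 1 + C ^ 2 * C' with hD
  have hD0 : 0 < D := by positivity
  refine ⟨c1 ^ 4 / (4 * D), by positivity, fun A => ?_⟩
  obtain ⟨N1, h1⟩ := hdeg (A + 4)
  obtain ⟨N2', h2⟩ := ev_L' (2 + 4 / c1)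
  obtain ⟨N3, h3⟩ := ev_log' 4 1
  refine ⟨N1 + N2' + N3 + M0 + 3, fun n hn => ?_⟩
  obtain ⟨E, hE, hEc, hEp⟩ := h1 n (by omega)
  have hL := h2 n (by omega)
  have hn0 : (0 : ℝ) < n := by exact_mod_cast (by omega : 0 < n)
  set L := Real.log (n : ℝ) with hLd
  have hc4 : 0 < 4 / c1 := by positivity
  have hL2 : 2 ≤ L := by linarith
  have hL0 : 0 < L := by linarith
  have hLc : 4 / c1 ≤ L := by linarith
  have hn8 : L ^ 8 ≤ n := by
    have h := h3 n (by omega)
    rw [one_mul, ← hLd] at h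
    calc L ^ 8 = L ^ 4 * L ^ 4 := by ring
      _ ≤ √(n : ℝ) * √(n : ℝ) := mul_le_mul h h (by positivity) (Real.sqrt_nonneg _)
      _ = n := Real.mul_self_sqrt hn0.le
  set d : ℝ := c1 * (n / L ^ 2) with hd
  have hd0 : 0 < d := by positivity
  set F := (Icc 1 n).filter (fun x => d / 2 < ((Nb n x ∩ E).card : ℝ)) with hF
  refine ⟨E ∪ F, union_subset hE (filter_subset _ _), ?_, ?_⟩
  · -- the size of the exceptional set
    have hcount : (∑ x ∈ Icc 1 n, ((Nb n x ∩ E).card : ℝ)) ≤ E.card * n := by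
      have e1 : ∑ x ∈ Icc 1 n, (Nb n x ∩ E).card = ∑ y ∈ E, (Nb n y).card := by
        have a1 : ∀ x ∈ Icc 1 n, (Nb n x ∩ E).card = ∑ y ∈ E, if R x y then 1 else 0 := by
          intro x _
          rw [← card_filter]
          congr 1
          ext y
          rw [mem_inter, mem_Nb, mem_filter]
          constructor
          · rintro ⟨⟨_, h2⟩, h3⟩
            exact ⟨h3, h2⟩
          · rintro ⟨h3, h2⟩
            exact ⟨⟨mem_Icc.1 (hE h3), h2⟩, h3⟩
        rw [sum_congr rfl a1, sum_comm]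
        apply sum_congr rfl
        intro y _
        rw [← card_filter]
        unfold Nb
        congr 1
        apply filter_congr
        intro x _
        exact ⟨R_symm, R_symm⟩
      have e2 : ∑ y ∈ E, (Nb n y).card ≤ E.card * n := by
        calc _ ≤ ∑ _y ∈ E, n := sum_le_sum fun y _ => Nb_le n y
          _ = _ := by rw [sum_const, smul_eq_mul]
      exact_mod_cast e1.le.trans e2
    have hFc : (F.card : ℝ) * (d / 2) ≤ E.card * n := by
      refine le_trans ?_ hcount
      calc (F.card : ℝ) * (d / 2) = ∑ _x ∈ F, d / 2 := by rw [sum_const, nsmul_eq_mul]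
        _ ≤ ∑ x ∈ F, ((Nb n x ∩ E).card : ℝ) := sum_le_sum fun x hx => by
            rw [hF, mem_filter] at hx
            exact hx.2.le
        _ ≤ _ := sum_le_sum_of_subset_of_nonneg (filter_subset _ _) (fun _ _ _ => Nat.cast_nonneg _)
    have hEn : (E.card : ℝ) * n ≤ n / L ^ (A + 4) * n := mul_le_mul_of_nonneg_right hEc hn0.le
    have hF2 : (F.card : ℝ) ≤ n / L ^ A / 2 := by
      have h5 : (F.card : ℝ) * (d / 2) ≤ (n / L ^ A / 2) * (d / 2) := by
        refine (hFc.trans hEn).trans ?_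
        have e : n / L ^ A / 2 * (d / 2) = n / L ^ (A + 4) * n * (c1 * L ^ 2 / 4) := by
          rw [hd, pow_add]
          field_simp
          norm_num
        rw [e]
        apply le_mul_of_one_le_right (by positivity)
        rw [div_le_iff₀ hc1] at hLc
        rw [le_div_iff₀ (by norm_num)]
        nlinarith
      exact le_of_mul_le_mul_right h5 (by positivity)
    have hE2 : (E.card : ℝ) ≤ n / L ^ A / 2 := by
      refine hEc.trans ?_
      rw [div_div]
      apply div_le_div_of_nonneg_left hn0.le (by positivity)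
      rw [pow_add]
      apply mul_le_mul_of_nonneg_left _ (by positivity)
      nlinarith [pow_pos hL0 3]
    have hu : ((E ∪ F).card : ℝ) ≤ E.card + F.card := by exact_mod_cast card_union_le _ _
    linarith
  · intro x hx hxE
    rw [mem_union, not_or] at hxE
    have hxn := mem_Icc.1 hx
    have hg := one_le_g1 x
    have hdx := hEp x hx hxE.1
    have hfew : ((Nb n x ∩ E).card : ℝ) ≤ d / 2 := by
      by_contra hcon
      apply hxE.2
      rw [hF, mem_filter]
      exact ⟨hx, not_le.1 hcon⟩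
    set G : ℝ := g1 x with hG
    -- the number of paths
    have hW : c1 ^ 2 / 2 * G * (n / L ^ 2) ^ 2 ≤ ((∑ x' ∈ Icc 1 n, (Cd n x x').card : ℕ) : ℝ) := by
      rw [sum_Cd]
      push_cast
      have hsplit : ((Nb n x \ E).card : ℝ) + ((Nb n x ∩ E).card : ℝ) = (Nb n x).card := by
        exact_mod_cast card_sdiff_add_card_inter (Nb n x) E
      have h5 : ((Nb n x \ E).card : ℝ) * d ≤ ∑ y ∈ Nb n x, ((Nb n y).card : ℝ) := by
        calc ((Nb n x \ E).card : ℝ) * d = ∑ _y ∈ Nb n x \ E, d := by rw [sum_const, nsmul_eq_mul]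
          _ ≤ ∑ y ∈ Nb n x \ E, ((Nb n y).card : ℝ) := by
              apply sum_le_sum
              intro y hy
              rw [mem_sdiff, mem_Nb] at hy
              have h6 := hEp y (mem_Icc.2 hy.1.1) hy.2
              refine le_trans ?_ h6
              rw [hd]
              have h7 := one_le_g1 y
              have h8 : 0 < c1 * ((n : ℝ) / L ^ 2) := by positivity
              calc c1 * ((n : ℝ) / L ^ 2) ≤ c1 * ((n : ℝ) / L ^ 2) * g1 y := le_mul_of_one_le_right h8.le h7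
                _ = _ := by ring
          _ ≤ _ := sum_le_sum_of_subset_of_nonneg sdiff_subset (fun _ _ _ => Nat.cast_nonneg _)
      refine le_trans ?_ h5
      have h6 : c1 / 2 * G * (n / L ^ 2) ≤ ((Nb n x \ E).card : ℝ) := by
        have h7 : d / 2 ≤ c1 / 2 * G * (n / L ^ 2) := by
          rw [hd]
          have h8 : 0 < c1 / 2 * ((n : ℝ) / L ^ 2) := by positivity
          calc c1 * ((n : ℝ) / L ^ 2) / 2 = c1 / 2 * ((n : ℝ) / L ^ 2) := by ring
            _ ≤ c1 / 2 * ((n : ℝ) / L ^ 2) * G := le_mul_of_one_le_right h8.le hg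
            _ = _ := by ring
        have h9 : c1 * G * (n / L ^ 2) = c1 / 2 * G * (n / L ^ 2) + c1 / 2 * G * (n / L ^ 2) := by ring
        linarith
      calc c1 ^ 2 / 2 * G * (n / L ^ 2) ^ 2 = (c1 / 2 * G * (n / L ^ 2)) * d := by rw [hd]; ring
        _ ≤ _ := mul_le_mul_of_nonneg_right h6 hd0.le
    have hQ : ∑ x' ∈ Icc 1 n, ((Cd n x x').card : ℝ) ^ 2 ≤ D * G ^ 2 * (n ^ 3 / L ^ 8) := by
      have h5 : ∀ x' ∈ Icc 1 n, ((Cd n x x').card : ℝ) ^ 2 ≤
          (if x' = x then (n : ℝ) ^ 2 else 0) + (C * G * (n / L ^ 4)) ^ 2 * HH x x' ^ 2 := by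
        intro x' hx'
        rw [mem_Icc] at hx'
        split_ifs with h
        · have h6 : ((Cd n x x').card : ℝ) ≤ n := by exact_mod_cast Cd_le n x x'
          have h7 : ((Cd n x x').card : ℝ) ^ 2 ≤ (n : ℝ) ^ 2 := pow_le_pow_left₀ (Nat.cast_nonneg _) h6 2
          have : 0 ≤ (C * G * (n / L ^ 4)) ^ 2 * HH x x' ^ 2 := by positivity
          linarith
        · have h6 := hcod n (by omega) x x' hxn.1 hx'.1 (fun e => h e.symm)
          rw [zero_add, ← mul_pow]
          apply pow_le_pow_left₀ (Nat.cast_nonneg _)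
          refine h6.trans (le_of_eq ?_)
          rw [hLd, hG]; ring
      refine (sum_le_sum h5).trans ?_
      rw [sum_add_distrib, sum_ite_eq', if_pos hx, ← mul_sum]
      have h6 := hHH n x (by omega) hxn.2
      have h7 : (C * G * (n / L ^ 4)) ^ 2 * ∑ x' ∈ Icc 1 n, HH x x' ^ 2 ≤ (C * G * (n / L ^ 4)) ^ 2 * (C' * n) :=
        mul_le_mul_of_nonneg_left h6 (by positivity)
      have h8 : (n : ℝ) ^ 2 ≤ G ^ 2 * (n ^ 3 / L ^ 8) := by
        have h9 : (n : ℝ) ^ 2 ≤ n ^ 3 / L ^ 8 := by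
          rw [le_div_iff₀ (by positivity)]
          calc (n : ℝ) ^ 2 * L ^ 8 ≤ n ^ 2 * n := mul_le_mul_of_nonneg_left hn8 (by positivity)
            _ = _ := by ring
        exact h9.trans (le_mul_of_one_le_left (by positivity) (one_le_pow₀ hg))
      have e : (C * G * (n / L ^ 4)) ^ 2 * (C' * n) = C ^ 2 * C' * (G ^ 2 * (n ^ 3 / L ^ 8)) := by
        rw [mul_pow, div_pow]
        ring
      rw [e] at h7
      rw [hD]
      linarith
    have hS := second n x
    have hW0 : 0 ≤ c1 ^ 2 / 2 * G * (n / L ^ 2) ^ 2 := by positivity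
    have h10 := pow_le_pow_left₀ hW0 hW 2
    have h11 : (c1 ^ 2 / 2 * G * (n / L ^ 2) ^ 2) ^ 2 ≤ ((N2 n x).card : ℝ) * (D * G ^ 2 * (n ^ 3 / L ^ 8)) :=
      h10.trans (hS.trans (mul_le_mul_of_nonneg_left hQ (Nat.cast_nonneg _)))
    have e1 : (c1 ^ 2 / 2 * G * (n / L ^ 2) ^ 2) ^ 2 = c1 ^ 4 / (4 * D) * n * (D * G ^ 2 * (n ^ 3 / L ^ 8)) := by
      field_simp
      ring
    rw [e1] at h11
    exact le_of_mul_le_mul_right h11 (by positivity)

/-- some odd prime lies outside a small set -/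
lemma prime_outside : ∃ N₀ : ℕ, ∀ n : ℕ, N₀ ≤ n → ∀ E : Finset ℕ, (E.card : ℝ) ≤ n / Real.log n ^ 2 →
    ∃ r, r.Prime ∧ r ≠ 2 ∧ r ≤ n ∧ r ∉ E := by
  classical
  obtain ⟨N1, h1⟩ := Pool.Agent.W93.PG.theta_ge
  obtain ⟨N2, h2⟩ := ev_L' 16
  obtain ⟨N3, h3⟩ := ev_log' 1 8
  refine ⟨N1 + N2 + N3 + 3, fun n hn E hE => ?_⟩
  have hL := h2 n (by omega)
  have hn0 : (0 : ℝ) < n := by exact_mod_cast (by omega : 0 < n)
  set L := Real.log (n : ℝ) with hLd
  have hL0 : 0 < L := by linarith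
  by_contra hcon
  push Not at hcon
  have hsub : (range (n + 1)).filter Nat.Prime ⊆ insert 2 E := by
    intro p hp
    rw [mem_filter, mem_range] at hp
    rw [mem_insert]
    by_contra hc
    rw [not_or] at hc
    exact hc.2 (hcon p hp.2 hc.1 (by omega))
  have hcard : (((range (n + 1)).filter Nat.Prime).card : ℝ) ≤ E.card + 1 := by
    exact_mod_cast (card_le_card hsub).trans (card_insert_le _ _)
  have h4 : (n : ℝ) / 4 ≤ ((range (n + 1)).filter Nat.Prime).card * L := by
    refine (h1 n (by omega)).trans ?_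
    rw [← nsmul_eq_mul, ← sum_const]
    apply sum_le_sum
    intro p hp
    rw [mem_filter, mem_range] at hp
    apply Real.log_le_log (by exact_mod_cast hp.2.pos)
    exact_mod_cast (by omega : p ≤ n)
  have h5 : (((range (n + 1)).filter Nat.Prime).card : ℝ) * L ≤ (n / L ^ 2 + 1) * L :=
    mul_le_mul_of_nonneg_right (by linarith) hL0.le
  have h6 : ((n : ℝ) / L ^ 2 + 1) * L = n / L + L := by
    field_simp
  have h7 : (n : ℝ) / L ≤ n / 16 := div_le_div_of_nonneg_left hn0.le (by norm_num) hL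
  have h8 : 8 * L ≤ n := by
    have h := h3 n (by omega)
    rw [pow_one, ← hLd] at h
    refine h.trans ?_
    rw [Real.sqrt_le_left hn0.le]
    have : (1 : ℝ) ≤ n := by exact_mod_cast (by omega : 1 ≤ n)
    nlinarith
  linarith

end Pool.Agent.Q143.GG
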