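import Mathlib

set_option autoImplicit false

/-! Combinatorial part: the second moment and the covering by few balls. -/

namespace Pool.Agent.Q143.GG

open Finset

/-- `x` and `y` (both positive) are adjacent -/
def R (x y : ℕ) : Prop := (x + y).Prime ∧ (Nat.dist x y).Prime

instance (x y : ℕ) : Decidable (R x y) := by unfold R; infer_instance

lemma R_symm {x y : ℕ} (h : R x y) : R y x := by
  unfold R at *
  rw [add_comm, Nat.dist_comm]
  exact h

/-- the neighbours of `x` -/
def Nb (n x : ℕ) : Finset ℕ := (Icc 1 n).filter (fun y => R x y)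

/-- the common neighbours -/
def Cd (n x x' : ℕ) : Finset ℕ := (Icc 1 n).filter (fun y => R x y ∧ R x' y)

/-- the points at distance at most two -/
def N2 (n x : ℕ) : Finset ℕ := (Icc 1 n).filter (fun x' => 0 < (Cd n x x').card)

lemma mem_Nb {n x y : ℕ} : y ∈ Nb n x ↔ (1 ≤ y ∧ y ≤ n) ∧ R x y := by
  unfold Nb
  rw [mem_filter, mem_Icc]

lemma sum_Cd (n x : ℕ) : ∑ x' ∈ Icc 1 n, (Cd n x x').card = ∑ y ∈ Nb n x, (Nb n y).card := by
  unfold Cd Nb
  simp only [card_filter]
  rw [sum_comm, sum_filter]
  apply sum_congr rfl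
  intro y _
  by_cases h : R x y
  · rw [if_pos h]
    apply sum_congr rfl
    intro x' _
    have : (R x y ∧ R x' y) ↔ R y x' := ⟨fun h => R_symm h.2, fun h' => ⟨h, R_symm h'⟩⟩
    simp only [this]
  · rw [if_neg h]
    apply sum_eq_zero
    intro x' _
    rw [if_neg]
    exact fun h' => h h'.1

/-- the second moment bound -/
lemma second (n x : ℕ) : ((∑ x' ∈ Icc 1 n, (Cd n x x').card : ℕ) : ℝ) ^ 2 ≤
    ((N2 n x).card : ℝ) * ∑ x' ∈ Icc 1 n, ((Cd n x x').card : ℝ) ^ 2 := by
  have h1 : ((∑ x' ∈ Icc 1 n, (Cd n x x').card : ℕ) : ℝ) = ∑ x' ∈ N2 n x, ((Cd n x x').card : ℝ) := by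
    unfold N2
    rw [sum_filter]
    push_cast
    apply sum_congr rfl
    intro x' _
    split_ifs with h
    · rfl
    · have : (Cd n x x').card = 0 := by omega
      rw [this]; simp
  rw [h1]
  refine (sq_sum_le_card_mul_sum_sq (s := N2 n x) (f := fun x' => ((Cd n x x').card : ℝ))).trans ?_
  apply mul_le_mul_of_nonneg_left _ (Nat.cast_nonneg _)
  apply sum_le_sum_of_subset_of_nonneg
  · exact filter_subset _ _
  · intro _ _ _
    positivity

/-- a maximal family of disjoint sets -/
lemma cover {α : Type*} [DecidableEq α] (V S : Finset α) (B : α → Finset α) (m : ℕ) (hm : 1 ≤ m)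
    (h : ∀ x ∈ S, B x ⊆ V ∧ m ≤ (B x).card) :
    ∃ T ⊆ S, T.card * m ≤ V.card ∧ ∀ z ∈ S, ∃ t ∈ T, (B z ∩ B t).Nonempty := by
  classical
  obtain ⟨T, hT, hmax⟩ := exists_max_image (S.powerset.filter (fun T : Finset α => (T : Set α).PairwiseDisjoint B))
    (fun T : Finset α => T.card) ⟨∅, by simp⟩
  rw [mem_filter, mem_powerset] at hT
  refine ⟨T, hT.1, ?_, ?_⟩
  · calc T.card * m = ∑ _t ∈ T, m := by rw [sum_const, smul_eq_mul]
      _ ≤ ∑ t ∈ T, (B t).card := sum_le_sum fun t ht => (h t (hT.1 ht)).2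
      _ = (T.biUnion B).card := (card_biUnion fun a ha b hb hab => hT.2 ha hb hab).symm
      _ ≤ V.card := card_le_card (biUnion_subset.2 fun t ht => (h t (hT.1 ht)).1)
  · intro z hz
    by_contra hcon
    push Not at hcon
    have hzT : z ∉ T := by
      intro hzT
      have := hcon z hzT
      rw [inter_self] at this
      have h2 := (h z hz).2
      rw [this, card_empty] at h2
      omega
    have h3 : insert z T ∈ S.powerset.filter (fun T : Finset α => (T : Set α).PairwiseDisjoint B) := by
      rw [mem_filter, mem_powerset]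
      refine ⟨insert_subset hz hT.1, ?_⟩
      rw [coe_insert]
      apply (Set.pairwiseDisjoint_insert).2
      refine ⟨hT.2, ?_⟩
      intro t ht _
      have := hcon t ht
      change Disjoint (B z) (B t)
      rw [disjoint_iff_inter_eq_empty]
      exact this
    have h4 := hmax _ h3
    rw [card_insert_of_notMem hzT] at h4
    omega

end Pool.Agent.Q143.GG
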