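import Pool.Agent.Q143.GG.Main

set_option autoImplicit false

/-! Covering by boundedly many balls, on the level of the integers `1, …, n`. -/

namespace Pool.Agent.Q143.GG

open Finset
open Pool.Agent.H373R2.T7 (ev_L' ev_log')

theorem covering : ∃ c : ℝ, 0 < c ∧ ∃ K : ℕ, ∀ A : ℕ, ∃ N₀ : ℕ, ∀ n : ℕ, N₀ ≤ n → ∃ E ⊆ Icc 1 n, ∃ T ⊆ Icc 1 n,
    (E.card : ℝ) + 1 ≤ n / Real.log n ^ A ∧ T.card ≤ K ∧
    (∀ x ∈ Icc 1 n, x ∉ E → c * n ≤ (N2 n x).card ∧ ∃ t ∈ T, (N2 n x ∩ N2 n t).Nonempty) ∧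
    ∃ r, r.Prime ∧ r ≠ 2 ∧ r ≤ n ∧ r ∉ E := by
  classical
  obtain ⟨c, hc, h⟩ := good_main
  obtain ⟨M0, hM⟩ := prime_outside
  refine ⟨c, hc, ⌊1 / c⌋₊, fun A => ?_⟩
  obtain ⟨N0, h0⟩ := h (A + 2)
  obtain ⟨N1, h1⟩ := ev_L' 2
  obtain ⟨N2', h2⟩ := ev_log' A 2
  refine ⟨N0 + N1 + N2' + M0 + 16, fun n hn => ?_⟩
  obtain ⟨E, hE, hEc, hEp⟩ := h0 n (by omega)
  have hL := h1 n (by omega)
  have hn16 : (16 : ℝ) ≤ n := by exact_mod_cast (by omega : 16 ≤ n)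
  have hn0 : (0 : ℝ) < n := by linarith
  set L := Real.log (n : ℝ) with hLd
  have hL0 : 0 < L := by linarith
  have hLA : 1 ≤ L ^ A := one_le_pow₀ (by linarith)
  have hEc2 : (E.card : ℝ) ≤ n / L ^ 2 := by
    refine hEc.trans ?_
    apply div_le_div_of_nonneg_left hn0.le (by positivity)
    exact pow_le_pow_right₀ (by linarith) (by omega)
  obtain ⟨r, hr⟩ := hM n (by omega) E hEc2
  have hcn : 0 < c * n := by positivity
  have hm1 : 1 ≤ ⌈c * (n : ℝ)⌉₊ := Nat.ceil_pos.2 hcn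
  obtain ⟨T, hT, hTc, hTp⟩ := cover (Icc 1 n) (Icc 1 n \ E) (N2 n) ⌈c * (n : ℝ)⌉₊ hm1 (by
    intro x hx
    rw [mem_sdiff] at hx
    exact ⟨filter_subset _ _, Nat.ceil_le.2 (hEp x hx.1 hx.2)⟩)
  refine ⟨E, hE, T, hT.trans sdiff_subset, ?_, ?_, ?_, r, hr⟩
  · have a1 : (n : ℝ) / L ^ (A + 2) ≤ n / L ^ A / 2 := by
      rw [div_div]
      apply div_le_div_of_nonneg_left hn0.le (by positivity)
      rw [pow_add]
      apply mul_le_mul_of_nonneg_left _ (by positivity)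
      nlinarith
    have a2 : 1 ≤ (n : ℝ) / L ^ A / 2 := by
      rw [div_div, one_le_div (by positivity), mul_comm]
      refine (h2 n (by omega)).trans ?_
      rw [Real.sqrt_le_left hn0.le]
      nlinarith
    linarith
  · apply Nat.le_floor
    rw [le_div_iff₀ hc]
    rw [Nat.card_Icc, Nat.add_sub_cancel] at hTc
    have h3 : (T.card : ℝ) * ⌈c * (n : ℝ)⌉₊ ≤ n := by exact_mod_cast hTc
    have h4 : (T.card : ℝ) * (c * n) ≤ n := le_trans (mul_le_mul_of_nonneg_left (Nat.le_ceil _) (Nat.cast_nonneg _)) h3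
    have h5 : (T.card : ℝ) * c * n ≤ 1 * n := by linarith
    exact le_of_mul_le_mul_right h5 hn0
  · intro x hx hxE
    exact ⟨hEp x hx hxE, hTp x (mem_sdiff.2 ⟨hx, hxE⟩)⟩

end Pool.Agent.Q143.GG
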