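import Pool.Agent.Y842.JC.Sieve
import Pool.Agent.Y842.JC.Avg
import Pool.Agent.Q143.GG.Comb

set_option autoImplicit false

/-! The sieve bound for the number of common neighbours. -/

namespace Pool.Agent.Q143.GG

open Finset
open Pool.Agent.H373R2.T7 (pz mem_pz Vz nuB PerB sys_fund Vz_pos Vz_le_one)
open Pool.Agent.TH891.SG (Gm one_le_Gm)
open Pool.Agent.Y842.JC (rem rem_insert Vz_up loc_le)

/-- the arithmetic weight -/
noncomputable def g1 (x : ℕ) : ℝ := ∏ p ∈ x.primeFactors, (1 + 1 / (p : ℝ))

lemma one_le_g1 (x : ℕ) : 1 ≤ g1 x := by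
  unfold g1
  calc (1 : ℝ) = ∏ _p ∈ x.primeFactors, (1 : ℝ) := by simp
    _ ≤ _ := prod_le_prod (fun _ _ => zero_le_one) (fun p _ => by
      have : 0 ≤ 1 / (p : ℝ) := by positivity
      linarith)

/-- the four shifts -/
def TT (x x' : ℕ) : Finset ℤ := {(x : ℤ), -(x : ℤ), (x' : ℤ), -(x' : ℤ)}

lemma TT_card (x x' : ℕ) : (TT x x').card ≤ 4 := by
  unfold TT
  exact card_le_four

/-- incongruent shifts remove different classes -/
lemma card_rem_ge (T : Finset ℤ) (p : ℕ) (hp : p.Prime) (U : Finset ℤ) (hU : U ⊆ T)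
    (hd : ∀ a ∈ U, ∀ b ∈ U, a ≠ b → ¬ (p : ℤ) ∣ a - b) : U.card ≤ (rem 0 T p).card := by
  classical
  have hp0 : (0 : ℤ) < p := by exact_mod_cast hp.pos
  apply card_le_card_of_injOn (fun t => ((-t) % (p : ℤ)).toNat)
  · intro t ht
    rw [mem_coe] at ht ⊢
    unfold rem
    rw [mem_filter, mem_range]
    have h1 := Int.emod_nonneg (-t) hp0.ne'
    have h2 := Int.emod_lt_of_pos (-t) hp0
    refine ⟨by simp only; omega, t, hU ht, ?_⟩
    simp only
    rw [Int.toNat_of_nonneg h1, zero_add]
    have h5 : (-t) % (p : ℤ) + t = -((-t) - (-t) % (p : ℤ)) := by ring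
    rw [h5, dvd_neg]
    exact Int.dvd_self_sub_emod
  · intro a ha b hb h
    rw [mem_coe] at ha hb
    by_contra hab
    apply hd a ha b hb hab
    simp only at h
    have h1 := Int.emod_nonneg (-a) hp0.ne'
    have h2 := Int.emod_nonneg (-b) hp0.ne'
    have h3 : (-a) % (p : ℤ) = (-b) % (p : ℤ) := by omega
    have h4 : (p : ℤ) ∣ (-b) - (-a) := Int.ModEq.dvd h3
    have e : (-b) - (-a) = a - b := by ring
    rwa [e] at h4

/-- the event at `p` -/
def Ev (x x' p : ℕ) : Prop := p = 2 ∨ p ∣ x' ∨ (p : ℤ) ∣ (x : ℤ) - x' ∨ (p : ℤ) ∣ (x : ℤ) + x'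

open Classical in
/-- the local factor -/
noncomputable def Fp (x x' p : ℕ) : ℝ :=
  (if p ∣ x then 1 + 1 / (p : ℝ) else 1) * (if Ev x x' p then (1 + 2 / (p : ℝ)) ^ 4 else 1)

lemma local_bound (x x' p : ℕ) (hp : p.Prime) :
    1 - ((rem 0 (TT x x') p).card : ℝ) / p ≤ (1 - 1 / (p : ℝ)) ^ 4 * Fp x x' p := by
  classical
  have hp2 : (2 : ℝ) ≤ p := by exact_mod_cast hp.two_le
  set u : ℝ := 1 / (p : ℝ) with hu
  have hu0 : 0 < u := by positivity
  have hu1 : u ≤ 1 / 2 := by
    rw [hu]
    exact one_div_le_one_div_of_le (by norm_num) hp2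
  have e1 : ((rem 0 (TT x x') p).card : ℝ) / p = (rem 0 (TT x x') p).card * u := by
    rw [hu]; ring
  have e2 : 2 / (p : ℝ) = 2 * u := by rw [hu]; ring
  rw [e1]
  unfold Fp
  rw [e2]
  have hc0 : (0 : ℝ) ≤ (rem 0 (TT x x') p).card := Nat.cast_nonneg _
  have hv : 0 < 1 - u := by linarith
  by_cases hE : Ev x x' p
  · rw [if_pos hE]
    have h1 : 1 ≤ (1 - u) * (1 + 2 * u) := by nlinarith
    have h2 : 1 ≤ ((1 - u) * (1 + 2 * u)) ^ 4 := one_le_pow₀ h1
    have h3 : (1 : ℝ) ≤ (if p ∣ x then 1 + u else 1) := by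
      split_ifs
      · linarith
      · exact le_rfl
    have h4 : 1 - ((rem 0 (TT x x') p).card : ℝ) * u ≤ 1 := by nlinarith
    calc _ ≤ (1 : ℝ) := h4
      _ ≤ ((1 - u) * (1 + 2 * u)) ^ 4 := h2
      _ ≤ ((1 - u) * (1 + 2 * u)) ^ 4 * (if p ∣ x then 1 + u else 1) := le_mul_of_one_le_right (by positivity) h3
      _ = _ := by ring
  · rw [if_neg hE, mul_one]
    unfold Ev at hE
    push Not at hE
    obtain ⟨hE1, hE2, hE3, hE4⟩ := hE
    have hpodd : ¬ p ∣ 2 := by
      intro h
      have := Nat.le_of_dvd (by norm_num) h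
      have := hp.two_le
      omega
    have hpp : Prime (p : ℤ) := Nat.prime_iff_prime_int.1 hp
    have hx'2 : ¬ (p : ℤ) ∣ 2 * (x' : ℤ) := by
      intro h
      rcases hpp.dvd_or_dvd h with h | h
      · exact hpodd (by exact_mod_cast h)
      · exact hE2 (by exact_mod_cast h)
    by_cases hx : p ∣ x
    · rw [if_pos hx]
      have h3 : 3 ≤ (rem 0 (TT x x') p).card := by
        have hU : ({(x : ℤ), (x' : ℤ), -(x' : ℤ)} : Finset ℤ).card = 3 := by
          apply card_eq_three.2
          refine ⟨_, _, _, ?_, ?_, ?_, rfl⟩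
          · intro h; apply hE3; rw [h, sub_self]; exact dvd_zero _
          · intro h; apply hE4; rw [h]; simp
          · intro h; apply hx'2
            have : 2 * (x' : ℤ) = 0 := by omega
            rw [this]; exact dvd_zero _
        rw [← hU]
        apply card_rem_ge _ p hp
        · intro t ht
          unfold TT
          simp only [mem_insert, mem_singleton] at ht ⊢
          tauto
        · intro a ha b hb hab hdv
          simp only [mem_insert, mem_singleton] at ha hb
          rcases ha with rfl | rfl | rfl <;> rcases hb with rfl | rfl | rfl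
          · exact hab rfl
          · exact hE3 hdv
          · apply hE4
            rwa [sub_neg_eq_add] at hdv
          · apply hE3
            rw [← dvd_neg, neg_sub]
            exact hdv
          · exact hab rfl
          · apply hx'2
            rw [sub_neg_eq_add, ← two_mul] at hdv
            exact hdv
          · apply hE4
            rw [← dvd_neg]
            have e : -((x : ℤ) + x') = -(x' : ℤ) - x := by ring
            rw [e]; exact hdv
          · apply hx'2
            rw [← dvd_neg]
            have e : -(2 * (x' : ℤ)) = -(x' : ℤ) - x' := by ring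
            rw [e]; exact hdv
          · exact hab rfl
      have h3r : (3 : ℝ) ≤ (rem 0 (TT x x') p).card := by exact_mod_cast h3
      have h4 : 1 - ((rem 0 (TT x x') p).card : ℝ) * u ≤ 1 - 3 * u := by nlinarith
      refine h4.trans ?_
      have : (1 - u) ^ 4 * (1 + u) - (1 - 3 * u) = u ^ 2 * (2 + 2 * u - 3 * u ^ 2 + u ^ 3) := by ring
      have h5 : 0 ≤ u ^ 2 * (2 + 2 * u - 3 * u ^ 2 + u ^ 3) := by
        apply mul_nonneg (by positivity)
        nlinarith [pow_pos hu0 3]
      linarith
    · rw [if_neg hx, mul_one]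
      have hx2 : ¬ (p : ℤ) ∣ 2 * (x : ℤ) := by
        intro h
        rcases hpp.dvd_or_dvd h with h | h
        · exact hpodd (by exact_mod_cast h)
        · exact hx (by exact_mod_cast h)
      have h3 : 4 ≤ (rem 0 (TT x x') p).card := by
        have hne : ∀ a b : ℤ, ¬ (p : ℤ) ∣ a - b → a ≠ b := by
          intro a b h hab
          apply h
          rw [hab, sub_self]
          exact dvd_zero _
        have k1 : ¬ (p : ℤ) ∣ (x : ℤ) - -(x : ℤ) := by
          rw [sub_neg_eq_add, ← two_mul]; exact hx2
        have k2 : ¬ (p : ℤ) ∣ (x : ℤ) - (x' : ℤ) := hE3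
        have k3 : ¬ (p : ℤ) ∣ (x : ℤ) - -(x' : ℤ) := by
          rw [sub_neg_eq_add]; exact hE4
        have k4 : ¬ (p : ℤ) ∣ -(x : ℤ) - (x' : ℤ) := by
          intro h
          apply hE4
          rw [← dvd_neg]
          have e : -((x : ℤ) + x') = -(x : ℤ) - x' := by ring
          rw [e]; exact h
        have k5 : ¬ (p : ℤ) ∣ -(x : ℤ) - -(x' : ℤ) := by
          intro h
          apply hE3
          rw [← dvd_neg]
          have e : -((x : ℤ) - x') = -(x : ℤ) - -x' := by ring
          rw [e]; exact h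
        have k6 : ¬ (p : ℤ) ∣ (x' : ℤ) - -(x' : ℤ) := by
          rw [sub_neg_eq_add, ← two_mul]; exact hx'2
        have hU : (TT x x').card = 4 := by
          unfold TT
          rw [card_insert_of_notMem, card_insert_of_notMem, card_pair (hne _ _ k6)]
          · simp only [mem_insert, mem_singleton, not_or]
            exact ⟨hne _ _ k4, hne _ _ k5⟩
          · simp only [mem_insert, mem_singleton, not_or]
            exact ⟨hne _ _ k1, hne _ _ k2, hne _ _ k3⟩
        rw [← hU]
        apply card_rem_ge _ p hp _ (Subset.refl _)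
        have hs : ∀ a b : ℤ, ¬ (p : ℤ) ∣ a - b → ¬ (p : ℤ) ∣ b - a := by
          intro a b h h'
          apply h
          rw [← dvd_neg, neg_sub]
          exact h'
        intro a ha b hb hab
        unfold TT at ha hb
        simp only [mem_insert, mem_singleton] at ha hb
        rcases ha with rfl | rfl | rfl | rfl <;> rcases hb with rfl | rfl | rfl | rfl
        · exact absurd rfl hab
        · exact k1
        · exact k2
        · exact k3
        · exact hs _ _ k1
        · exact absurd rfl hab
        · exact k4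
        · exact k5
        · exact hs _ _ k2
        · exact hs _ _ k4
        · exact absurd rfl hab
        · exact k6
        · exact hs _ _ k3
        · exact hs _ _ k5
        · exact hs _ _ k6
        · exact absurd rfl hab
      have h3r : (4 : ℝ) ≤ (rem 0 (TT x x') p).card := by exact_mod_cast h3
      have h4 : 1 - ((rem 0 (TT x x') p).card : ℝ) * u ≤ 1 - 4 * u := by nlinarith
      refine h4.trans ?_
      have := one_add_mul_le_pow (a := -u) (by linarith) 4
      have e : 1 + ((4 : ℕ) : ℝ) * -u = 1 - 4 * u := by push_cast; ring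
      rw [e] at this
      have e' : 1 + -u = 1 - u := by ring
      rwa [e'] at this

end Pool.Agent.Q143.GG
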