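import Pool.Agent.H560R3.GB.Tup3
import Pool.Agent.W93.GB4
import Pool.Agent.Q143.GG.Sv

set_option autoImplicit false

/-! Lower bounds for the degrees, for almost all vertices. -/

namespace Pool.Agent.Q143.GG

open Finset
open Pool.Agent.H560R3.GB
open Pool.Agent.W93.GB
open Pool.Agent.H373R2.T7 (singZ nuP nuP_eq rhoP Admissible singZ_low pz mem_pz tupleCount)

lemma one_le_twoC2 : 1 ≤ 2 * C₂ := by linarith [C2_half]

lemma sing_ge_g1 (x : ℕ) (hx : 1 ≤ x) : 2 / 3 * g1 x ≤ sing (2 * x) := by
  rw [sing_eq]
  have h1 : g1 x ≤ 3 / 2 * ∏ p ∈ (2 * x).primeFactors.filter (fun p => 2 < p), dv p := by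
    unfold g1
    rw [← prod_filter_mul_prod_filter_not x.primeFactors (fun p => 2 < p)]
    have a1 : ∏ p ∈ x.primeFactors.filter (fun p => ¬ 2 < p), (1 + 1 / (p : ℝ)) ≤ 3 / 2 := by
      have hsub : x.primeFactors.filter (fun p => ¬ 2 < p) ⊆ {2} := by
        intro p hp
        rw [mem_filter] at hp
        have := (Nat.prime_of_mem_primeFactors hp.1).two_le
        rw [mem_singleton]
        omega
      calc ∏ p ∈ x.primeFactors.filter (fun p => ¬ 2 < p), (1 + 1 / (p : ℝ))
          ≤ ∏ p ∈ ({2} : Finset ℕ), (1 + 1 / (p : ℝ)) := by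
            apply Pool.Agent.Y842.JC.prod_mono_one hsub
            intro p
            have : 0 ≤ 1 / (p : ℝ) := by positivity
            linarith
        _ = 3 / 2 := by norm_num
    have a2 : ∏ p ∈ x.primeFactors.filter (fun p => 2 < p), (1 + 1 / (p : ℝ)) ≤
        ∏ p ∈ (2 * x).primeFactors.filter (fun p => 2 < p), dv p := by
      calc ∏ p ∈ x.primeFactors.filter (fun p => 2 < p), (1 + 1 / (p : ℝ))
          ≤ ∏ p ∈ x.primeFactors.filter (fun p => 2 < p), dv p := by
            apply prod_le_prod
            · intro p _; positivity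
            · intro p hp
              have h3 : (3 : ℝ) ≤ p := by exact_mod_cast (mem_filter.1 hp).2
              unfold dv
              rw [le_div_iff₀ (by linarith)]
              have : (1 + 1 / (p : ℝ)) * (p - 2) = p - 1 - 2 / p := by
                field_simp
                ring
              rw [this]
              have : 0 ≤ 2 / (p : ℝ) := by positivity
              linarith
        _ ≤ _ := by
            have hsub : x.primeFactors.filter (fun p => 2 < p) ⊆ (2 * x).primeFactors.filter (fun p => 2 < p) := by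
              apply filter_subset_filter
              exact Nat.primeFactors_mono (Dvd.intro_left _ rfl) (by omega)
            rw [← prod_sdiff hsub]
            apply le_mul_of_one_le_left
            · have := one_le_prod_dv (x.primeFactors.filter (fun p => 2 < p)) (fun p hp => (mem_filter.1 hp).2)
              linarith
            · apply one_le_prod_dv
              intro p hp
              exact (mem_filter.1 (mem_sdiff.1 hp).1).2
    have a3 : 0 ≤ ∏ p ∈ x.primeFactors.filter (fun p => 2 < p), (1 + 1 / (p : ℝ)) := by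
      apply prod_nonneg
      intro p _
      positivity
    calc _ ≤ (∏ p ∈ x.primeFactors.filter (fun p => 2 < p), (1 + 1 / (p : ℝ))) * (3 / 2) :=
          mul_le_mul_of_nonneg_left a1 a3
      _ ≤ (∏ p ∈ (2 * x).primeFactors.filter (fun p => 2 < p), dv p) * (3 / 2) :=
          mul_le_mul_of_nonneg_right a2 (by norm_num)
      _ = _ := by ring
  have h2 := one_le_twoC2
  have h3 := one_le_prod_dv ((2 * x).primeFactors.filter (fun p => 2 < p)) (fun p hp => (mem_filter.1 hp).2)
  nlinarith

/-- Goldbach representations give neighbours -/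
lemma g_le_deg (n x : ℕ) (hx : x ≤ n) : g (2 * x) ≤ 2 * (Nb n x).card + 1 := by
  classical
  rw [g_eq]
  set S := (Icc 1 (2 * x)).filter (fun b => b.Prime ∧ (2 * x - b).Prime) with hS
  have h1 : (S.filter (fun b => b < x)).card ≤ (Nb n x).card := by
    apply card_le_card_of_injOn (fun b => x - b)
    · intro b hb
      rw [mem_coe, mem_filter, hS, mem_filter, mem_Icc] at hb
      rw [mem_coe, mem_Nb]
      obtain ⟨⟨⟨h1, h2⟩, h3, h4⟩, h5⟩ := hb
      refine ⟨⟨by simp only; omega, by simp only; omega⟩, ?_, ?_⟩
      · have : x + (x - b) = 2 * x - b := by omega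
        rw [this]; exact h4
      · have : Nat.dist x (x - b) = b := by unfold Nat.dist; omega
        rw [this]; exact h3
    · intro a ha b hb h
      rw [mem_coe, mem_filter] at ha hb
      simp only at h
      omega
  have h2 : (S.filter (fun b => x < b)).card ≤ (Nb n x).card := by
    apply card_le_card_of_injOn (fun b => b - x)
    · intro b hb
      rw [mem_coe, mem_filter, hS, mem_filter, mem_Icc] at hb
      rw [mem_coe, mem_Nb]
      obtain ⟨⟨⟨h1, h2⟩, h3, h4⟩, h5⟩ := hb
      refine ⟨⟨by simp only; omega, by simp only; omega⟩, ?_, ?_⟩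
      · have : x + (b - x) = b := by omega
        rw [this]; exact h3
      · have : Nat.dist x (b - x) = 2 * x - b := by unfold Nat.dist; omega
        rw [this]; exact h4
    · intro a ha b hb h
      rw [mem_coe, mem_filter] at ha hb
      simp only at h
      omega
  have h3 : S ⊆ (S.filter (fun b => b < x) ∪ S.filter (fun b => x < b)) ∪ {x} := by
    intro b hb
    rw [mem_union, mem_union, mem_singleton]
    rcases Nat.lt_trichotomy b x with h | h | h
    · exact Or.inl (Or.inl (mem_filter.2 ⟨hb, h⟩))
    · exact Or.inr h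
    · exact Or.inl (Or.inr (mem_filter.2 ⟨hb, h⟩))
  have h4 := card_le_card h3
  have h5 := card_union_le (S.filter (fun b => b < x) ∪ S.filter (fun b => x < b)) {x}
  have h6 := card_union_le (S.filter (fun b => b < x)) (S.filter (fun b => x < b))
  rw [card_singleton] at h5
  omega

/-- prime pairs with difference `2 x` give neighbours -/
lemma tw_le_deg (n x N : ℕ) (hx : x + N ≤ n) : primeTuples (fun _ : Fin 1 => 2 * x) N ≤ (Nb n x).card := by
  unfold primeTuples
  apply card_le_card_of_injOn (fun p => x + p)
  · intro p hp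
    rw [mem_coe, mem_filter, mem_Icc] at hp
    rw [mem_coe, mem_Nb]
    obtain ⟨⟨h1, h2⟩, h3, h4⟩ := hp
    refine ⟨⟨by simp only; omega, by simp only; omega⟩, ?_, ?_⟩
    · have : x + (x + p) = p + 2 * x := by omega
      rw [this]; exact h4 0
    · have : Nat.dist x (x + p) = p := by unfold Nat.dist; omega
      rw [this]; exact h3
  · intro a _ b _ h
    simp only at h
    omega

lemma nuP_pos (n p : ℕ) (hp : p.Prime) : nuP (fun _ : Fin 1 => (n : ℤ)) p = nuP (sh n) p := by
  rw [nuP_sh n p hp, nuP_eq _ _ hp]
  have hp0 : (0 : ℤ) < p := by exact_mod_cast hp.pos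
  unfold rhoP
  split_ifs with h
  · have : (range p).filter (fun r : ℕ => ¬ p ∣ r ∧ ∃ _i : Fin 1, (p : ℤ) ∣ (r : ℤ) + (n : ℤ)) = ∅ := by
      rw [filter_eq_empty_iff]
      rintro r _ ⟨h1, ⟨_, h2⟩⟩
      apply h1
      have h3 : (p : ℤ) ∣ (n : ℤ) := by exact_mod_cast h
      have h4 := dvd_sub h2 h3
      rw [add_sub_cancel_right] at h4
      exact_mod_cast h4
    rw [this, card_empty]
  · have h9 : n % p < p := Nat.mod_lt _ hp.pos
    have h8 : n % p ≠ 0 := fun h0 => h (Nat.dvd_of_mod_eq_zero h0)
    have : (range p).filter (fun r : ℕ => ¬ p ∣ r ∧ ∃ _i : Fin 1, (p : ℤ) ∣ (r : ℤ) + (n : ℤ)) = {p - n % p} := by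
      have hkey : ∀ r : ℕ, (p : ℤ) ∣ (r : ℤ) + (n : ℤ) ↔ p ∣ r + n % p := by
        intro r
        have e : (r : ℤ) + n = ((r + n % p : ℕ) : ℤ) + p * ((n / p : ℕ) : ℤ) := by
          have := Nat.mod_add_div n p
          have h2 : (n : ℤ) = ((n % p : ℕ) : ℤ) + p * ((n / p : ℕ) : ℤ) := by exact_mod_cast this.symm
          rw [Nat.cast_add]
          linarith
        rw [e, Int.dvd_add_left (dvd_mul_right _ _)]
        exact Int.natCast_dvd_natCast
      ext r
      rw [mem_filter, mem_range, mem_singleton]
      constructor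
      · rintro ⟨h1, _, ⟨_, h3⟩⟩
        rw [hkey] at h3
        obtain ⟨k, hk⟩ := h3
        have hk1 : k = 1 := by
          have : k < 2 := by
            by_contra hc
            have : p * 2 ≤ p * k := Nat.mul_le_mul_left _ (by omega)
            omega
          have : k ≠ 0 := by
            rintro rfl
            omega
          omega
        rw [hk1] at hk
        omega
      · rintro rfl
        refine ⟨by omega, ?_, ⟨0, ?_⟩⟩
        · intro h1
          have := Nat.le_of_dvd (by omega) h1
          omega
        · rw [hkey]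
          have : p - n % p + n % p = p := by omega
          rw [this]
    rw [this, card_singleton]

lemma singZ_pos_eq (n z : ℕ) : singZ (fun _ : Fin 1 => (n : ℤ)) z = singZ (sh n) z := by
  unfold singZ
  apply prod_congr rfl
  intro p hp
  rw [nuP_pos n p (mem_filter.1 hp).2]

lemma adm_even (n : ℕ) : Admissible (fun _ : Fin 1 => ((2 * n : ℕ) : ℤ)) := by
  intro p hp
  by_cases h2 : p = 2
  · subst h2
    refine ⟨1, by norm_num, fun _ => ?_⟩
    push_cast
    omega
  · have h3 : 3 ≤ p := by have := hp.two_le; omega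
    by_cases h : (p : ℤ) ∣ 1 + ((2 * n : ℕ) : ℤ)
    · refine ⟨2, ?_, fun _ h' => ?_⟩
      · intro h'
        have := Int.le_of_dvd (by norm_num) h'
        omega
      · have h5 := dvd_sub h' h
        have e : (2 : ℤ) + ((2 * n : ℕ) : ℤ) - (1 + ((2 * n : ℕ) : ℤ)) = 1 := by ring
        rw [e] at h5
        have := Int.le_of_dvd (by norm_num) h5
        omega
    · refine ⟨1, ?_, fun _ => h⟩
      intro h'
      have := Int.le_of_dvd (by norm_num) h'
      omega

/-- the limit of the singular products is at least the Goldbach singular series -/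
lemma lim_ge (x : ℕ) (hx : 1 ≤ x) (S : ℝ)
    (hS : Filter.Tendsto (fun z => singZ (fun _ : Fin 1 => ((2 * x : ℕ) : ℤ)) z) Filter.atTop (nhds S)) :
    sing (2 * x) ≤ S := by
  apply ge_of_tendsto hS
  filter_upwards [Filter.eventually_ge_atTop (2 * x)] with z hz
  rw [singZ_pos_eq, singZ_sh (2 * x) z (Dvd.intro _ rfl) (by omega) (by omega), sing_eq]
  have h1 : (2 * x).primeFactors.filter (fun p => 2 < p ∧ p ≤ z) = (2 * x).primeFactors.filter (fun p => 2 < p) := by
    apply filter_congr
    intro p hp
    have := Nat.le_of_mem_primeFactors hp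
    constructor
    · exact fun h => h.1
    · exact fun h => ⟨h, by omega⟩
  rw [h1]
  apply mul_le_mul_of_nonneg_right
  · linarith [C2_le z]
  · have := one_le_prod_dv ((2 * x).primeFactors.filter (fun p => 2 < p)) (fun p hp => (mem_filter.1 hp).2)
    linarith

lemma card_eq_pairs (x : ℕ) (s : ℕ → ℕ) (hs : Function.Injective s) : energy 1 x s = x := by
  unfold energy
  have : ((Fintype.piFinset fun _ : Fin 1 => Icc 1 x) ×ˢ (Fintype.piFinset fun _ : Fin 1 => Icc 1 x)).filter
      (fun q => ∑ i, s (q.1 i) = ∑ i, s (q.2 i)) =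
      (Fintype.piFinset fun _ : Fin 1 => Icc 1 x).image (fun v => (v, v)) := by
    ext ⟨v, w⟩
    simp only [mem_filter, mem_product, mem_image, Prod.mk.injEq, Fin.sum_univ_one]
    constructor
    · rintro ⟨⟨h1, h2⟩, h3⟩
      refine ⟨v, h1, rfl, ?_⟩
      funext i
      have hi : i = 0 := Subsingleton.elim _ _
      rw [hi]
      exact hs h3
    · rintro ⟨u, h1, rfl, rfl⟩
      exact ⟨⟨h1, h1⟩, rfl⟩
  rw [this, card_image_of_injective, Fintype.card_piFinset]
  · simp
  · intro a b h
    exact (Prod.mk.inj h).1

end Pool.Agent.Q143.GG
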