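import Pool.Agent.Q143.GG.Deg
import Pool.Agent.H373R2.T7.Minor

set_option autoImplicit false

/-! Lower bounds for the degrees, for almost all vertices: the theorem. -/

namespace Pool.Agent.Q143.GG

open Finset
open Pool.Agent.H560R3.GB
open Pool.Agent.W93.GB
open Pool.Agent.H373R2.T7 (singZ Admissible singZ_low tupleCount ev_L' ev_log')

/-- prime pairs: the lower bound for almost all differences -/
theorem twins (U : ℕ) : ∃ N₀ : ℕ, ∀ N : ℕ, N₀ ≤ N → ∃ E ⊆ Icc 1 N, (E.card : ℝ) ≤ N / Real.log N ^ U ∧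
    ∀ x ∈ Icc 1 N, x ∉ E → 1 / 3 * g1 x * (N / Real.log N ^ 2) ≤ primeTuples (fun _ : Fin 1 => 2 * x) N := by
  classical
  obtain ⟨c, hc, hlow⟩ := singZ_low 1
  obtain ⟨N₀, h0⟩ := ftuples_full 1 1 2 0 (U + 1) le_rfl le_rfl
  obtain ⟨N₁, h1⟩ := tuple_transfer 1 2 c (1 / 2) hc (by norm_num)
  obtain ⟨N₂, h2⟩ := ev_L' 1
  refine ⟨N₀ + N₁ + N₂ + 3, fun N hN => ?_⟩
  have hL := h2 N (by omega)
  have hL0 : 0 < Real.log (N : ℝ) := by linarith
  have hN0 : (0 : ℝ) < N := by exact_mod_cast (by omega : 0 < N)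
  set P : ℕ → Prop := fun m => ∃ S : ℝ, Filter.Tendsto (fun z => singZ (fun _ : Fin 1 => ((2 * m : ℕ) : ℤ)) z) Filter.atTop (nhds S) ∧
        |tupleCount (fun _ : Fin 1 => ((2 * m : ℕ) : ℤ)) N - S * N| ≤ (N : ℝ) / Real.log N ^ (U + 1) with hP
  refine ⟨(Icc 1 N).filter (fun m => ¬ P m), filter_subset _ _, ?_, ?_⟩
  · have h3 := h0 N (by omega) (fun _ => N) (fun _ m => 2 * m) (fun _ => by omega)
      (fun _ m hm => by rw [mem_Icc] at hm; omega) (fun _ => by
        have e : Pool.Agent.H373R2.T7.energy 1 N (fun m => ((2 * m : ℕ) : ℤ)) = N := by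
          have := card_eq_pairs N (fun m => 2 * m) (fun a b h => by simp only at h; omega)
          refine Eq.trans ?_ this
          unfold Pool.Agent.H373R2.T7.energy energy
          congr 1
          apply filter_congr
          intro q _
          simp only [Fin.sum_univ_one]
          rw [Nat.cast_inj]
        rw [e]
        simp
        rw [sq])
    have h4 : ((Icc 1 N).filter (fun m => ¬ P m)).card ≤
        ((Fintype.piFinset (fun _ : Fin 1 => Icc 1 N)).filter (fun m : Fin 1 → ℕ =>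
        ¬ ∃ S : ℝ, Filter.Tendsto (fun z => singZ (fun i => ((2 * m i : ℕ) : ℤ)) z) Filter.atTop (nhds S) ∧
        |tupleCount (fun i => ((2 * m i : ℕ) : ℤ)) N - S * N| ≤ (N : ℝ) / Real.log N ^ (U + 1))).card := by
      apply card_le_card_of_injOn (fun m => (fun _ => m))
      · intro m hm
        rw [mem_coe, mem_filter] at hm
        rw [mem_coe, mem_filter, Fintype.mem_piFinset]
        exact ⟨fun _ => hm.1, hm.2⟩
      · intro a _ b _ h
        exact congrFun h 0
    have h5 : (((Icc 1 N).filter (fun m => ¬ P m)).card : ℝ) ≤ (∏ _i : Fin 1, (N : ℝ)) / Real.log N ^ (U + 1) :=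
      le_trans (by exact_mod_cast h4) h3
    refine h5.trans ?_
    rw [Fin.prod_univ_one]
    apply div_le_div_of_nonneg_left hN0.le (by positivity)
    exact pow_le_pow_right₀ hL (by omega)
  · intro x hx hxE
    rw [mem_filter, not_and, not_not] at hxE
    obtain ⟨S, hS, hS2⟩ := hxE hx
    rw [mem_Icc] at hx
    have hcS : c ≤ S := ge_of_tendsto' hS (hlow _ (adm_even x))
    have hSg : sing (2 * x) ≤ S := lim_ge x hx.1 S hS
    have h3 := h1 N (by omega) (fun _ => 2 * x) (fun _ => by omega) S hcS (hS2.trans (by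
      apply div_le_div_of_nonneg_left hN0.le hL0
      exact le_self_pow₀ hL (by omega)))
    have h4 := (abs_le.1 h3).1
    have h5 := sing_ge_g1 x hx.1
    have h6 : 0 < (N : ℝ) / Real.log N ^ 2 := by positivity
    have h7 : 2 / 3 * g1 x * (N / Real.log N ^ 2) ≤ S * (N / Real.log N ^ 2) :=
      mul_le_mul_of_nonneg_right (h5.trans hSg) h6.le
    have e : (1 + 1 : ℕ) = 2 := rfl
    rw [e] at h4
    linarith

theorem deg_low : ∃ c : ℝ, 0 < c ∧ ∀ U : ℕ, ∃ N₀ : ℕ, ∀ n : ℕ, N₀ ≤ n → ∃ E ⊆ Icc 1 n,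
    (E.card : ℝ) ≤ n / Real.log n ^ U ∧
    ∀ x ∈ Icc 1 n, x ∉ E → c * g1 x * (n / Real.log n ^ 2) ≤ (Nb n x).card := by
  classical
  refine ⟨1 / 48, by norm_num, fun U => ?_⟩
  obtain ⟨N1, h1⟩ := twins (U + 1)
  obtain ⟨N2, h2⟩ := fam 1 2 0 (U + 1) le_rfl (1 / 2) (by norm_num)
  obtain ⟨N3, h3⟩ := ev_L' (2 ^ (U + 2))
  obtain ⟨N4, h4⟩ := ev_log' 2 48
  refine ⟨2 * N1 + N2 + N3 + N4 + 2500 + 10, fun n hn => ?_⟩
  set N := n / 2 with hNd
  obtain ⟨E1, hE1, hE1c, hE1p⟩ := h1 N (by omega)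
  have hn10 : 10 ≤ n := by omega
  have hnr : (10 : ℝ) ≤ n := by exact_mod_cast hn10
  have hn0 : (0 : ℝ) < n := by linarith
  set L := Real.log (n : ℝ) with hLd
  have hL := h3 n (by omega)
  rw [← hLd] at hL
  have hU1 : (1 : ℝ) ≤ 2 ^ U := one_le_pow₀ (by norm_num)
  have hL4 : 4 ≤ L := by
    have : (2 : ℝ) ^ (U + 2) = 4 * 2 ^ U := by ring
    linarith
  have hL0 : 0 < L := by linarith
  have hN2 : (n : ℝ) / 3 ≤ N := by
    have : n ≤ 2 * N + 1 := by omega
    have h : (n : ℝ) ≤ 2 * N + 1 := by exact_mod_cast this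
    linarith
  have hN2' : (N : ℝ) ≤ n / 2 := by
    have : 2 * N ≤ n := by omega
    have h : (2 : ℝ) * N ≤ n := by exact_mod_cast this
    linarith
  have hN0 : (0 : ℝ) < N := by linarith
  have hlogN : L / 2 ≤ Real.log N := by
    have h5 : √(n : ℝ) ≤ N := by
      refine le_trans ?_ hN2
      rw [Real.sqrt_le_left (by linarith)]
      nlinarith
    have h6 : Real.log (√(n : ℝ)) ≤ Real.log N := Real.log_le_log (by positivity) h5
    rwa [Real.log_sqrt hn0.le] at h6
  have hlogN2 : Real.log N ≤ L := Real.log_le_log hN0 (by linarith)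
  have hlogN0 : 0 < Real.log N := by linarith
  set P : ℕ → Prop := fun m => Good (1 / 2) (2 * m) with hPd
  set E2 := (Icc 1 n).filter (fun m => ¬ P m) with hE2
  have hE2c : (E2.card : ℝ) ≤ n / L ^ (U + 1) := by
    refine h2 n (by omega) n (fun m => 2 * m) (fun m hm => ?_) ?_ E2 (filter_subset _ _) ?_
    · rw [mem_Icc] at hm
      exact ⟨by omega, Dvd.intro _ rfl⟩
    · rw [card_eq_pairs n (fun m => 2 * m) (fun a b h => by simp only at h; omega)]
      simp
      rw [sq]
    · intro m hm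
      rw [hE2, mem_filter] at hm
      exact hm.2
  refine ⟨E1 ∪ E2, ?_, ?_, ?_⟩
  · apply union_subset
    · refine hE1.trans (Icc_subset_Icc le_rfl (by omega))
    · exact filter_subset _ _
  · have hu : ((E1 ∪ E2).card : ℝ) ≤ E1.card + E2.card := by exact_mod_cast card_union_le _ _
    have hA : (E1.card : ℝ) ≤ n / L ^ U / 2 := by
      refine hE1c.trans ?_
      have a1 : (L / 2) ^ (U + 1) ≤ Real.log N ^ (U + 1) := pow_le_pow_left₀ (by linarith) hlogN _
      calc (N : ℝ) / Real.log N ^ (U + 1) ≤ (n / 2) / (L / 2) ^ (U + 1) := by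
            apply div_le_div₀ (by linarith) hN2' (by positivity) a1
        _ = n / L ^ U / 2 * (2 ^ (U + 1) / L) := by
            rw [div_pow, pow_succ L U]
            field_simp
        _ ≤ n / L ^ U / 2 * 1 := by
            apply mul_le_mul_of_nonneg_left _ (by positivity)
            rw [div_le_one hL0]
            have : (2 : ℝ) ^ (U + 2) = 2 * 2 ^ (U + 1) := by ring
            have : (0 : ℝ) < 2 ^ (U + 1) := by positivity
            linarith
        _ = _ := mul_one _
    have hB : (E2.card : ℝ) ≤ n / L ^ U / 2 := by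
      refine hE2c.trans ?_
      calc (n : ℝ) / L ^ (U + 1) = n / L ^ U * (1 / L) := by
            rw [pow_succ]
            field_simp
        _ ≤ n / L ^ U * (1 / 2) := by
            apply mul_le_mul_of_nonneg_left _ (by positivity)
            apply one_div_le_one_div_of_le (by norm_num)
            linarith
        _ = _ := by ring
    linarith
  · intro x hx hxE
    rw [mem_union, not_or] at hxE
    have hxn := mem_Icc.1 hx
    have hg := one_le_g1 x
    have hnL : 0 < (n : ℝ) / L ^ 2 := by positivity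
    rcases Nat.lt_or_ge N x with hxN | hxN
    · -- Goldbach
      have hP : P x := by
        by_contra hcon
        apply hxE.2
        rw [hE2, mem_filter]
        exact ⟨hx, hcon⟩
      have h5 := (abs_le.1 hP.1).1
      have h6 : (1 / 2 : ℝ) * HL (2 * x) ≤ g (2 * x) := by linarith
      have h7 : (g (2 * x) : ℝ) ≤ 2 * (Nb n x).card + 1 := by exact_mod_cast g_le_deg n x hxn.2
      have h8 : (n : ℝ) ≤ ((2 * x : ℕ) : ℝ) := by exact_mod_cast (by omega : n ≤ 2 * x)
      have h8' : ((2 * x : ℕ) : ℝ) ≤ 2 * n := by exact_mod_cast (by omega : 2 * x ≤ 2 * n)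
      have h9 : Real.log ((2 * x : ℕ) : ℝ) ≤ 2 * L := by
        have : Real.log ((2 * x : ℕ) : ℝ) ≤ Real.log ((n : ℝ) ^ 2) := by
          apply Real.log_le_log (by linarith)
          nlinarith
        rw [Real.log_pow] at this
        push_cast at this ⊢
        exact this
      have h10 : 0 < Real.log ((2 * x : ℕ) : ℝ) := Real.log_pos (by linarith)
      have h11 : (n : ℝ) / (4 * L ^ 2) ≤ ((2 * x : ℕ) : ℝ) / Real.log ((2 * x : ℕ) : ℝ) ^ 2 := by
        apply div_le_div₀ (by linarith) h8 (by positivity)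
        calc Real.log ((2 * x : ℕ) : ℝ) ^ 2 ≤ (2 * L) ^ 2 := pow_le_pow_left₀ h10.le h9 2
          _ = _ := by ring
      have h12 : 2 / 3 * g1 x * (n / (4 * L ^ 2)) ≤ HL (2 * x) := by
        unfold HL
        apply mul_le_mul (sing_ge_g1 x hxn.1) h11 (by positivity)
        linarith [one_le_sing (2 * x)]
      have h13 : 24 ≤ (n : ℝ) / L ^ 2 := by
        have h := h4 n (by omega)
        rw [← hLd] at h
        rw [le_div_iff₀ (by positivity)]
        have hs : √(n : ℝ) ≤ n := by
          rw [Real.sqrt_le_left hn0.le]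
          nlinarith
        nlinarith [sq_nonneg L]
      have e1 : 2 / 3 * g1 x * (n / (4 * L ^ 2)) = 1 / 6 * (g1 x * (n / L ^ 2)) := by
        field_simp
        ring
      have h14 : 24 ≤ g1 x * (n / L ^ 2) := h13.trans (le_mul_of_one_le_left hnL.le hg)
      have e2 : 1 / 48 * g1 x * (n / L ^ 2) = 1 / 48 * (g1 x * (n / L ^ 2)) := by ring
      rw [e2]
      rw [e1] at h12
      linarith
    · -- prime pairs
      have hxI : x ∈ Icc 1 N := by rw [mem_Icc]; omega
      have h5 := hE1p x hxI hxE.1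
      have h6 : (primeTuples (fun _ : Fin 1 => 2 * x) N : ℝ) ≤ (Nb n x).card := by
        exact_mod_cast tw_le_deg n x N (by omega)
      have h7 : (n : ℝ) / 3 / L ^ 2 ≤ N / Real.log N ^ 2 :=
        div_le_div₀ hN0.le hN2 (by positivity) (pow_le_pow_left₀ hlogN0.le hlogN2 2)
      have h8 : 1 / 3 * g1 x * ((n : ℝ) / 3 / L ^ 2) ≤ 1 / 3 * g1 x * (N / Real.log N ^ 2) :=
        mul_le_mul_of_nonneg_left h7 (by linarith)
      have e1 : 1 / 3 * g1 x * ((n : ℝ) / 3 / L ^ 2) = 1 / 9 * (g1 x * (n / L ^ 2)) := by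
        ring
      have e2 : 1 / 48 * g1 x * (n / L ^ 2) = 1 / 48 * (g1 x * (n / L ^ 2)) := by ring
      have h9 : 0 < g1 x * (n / L ^ 2) := by positivity
      rw [e2]
      linarith

end Pool.Agent.Q143.GG
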